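import Pool.Agent.Helper1.BSX.Stmts

set_option autoImplicit false

namespace Pool.Agent.Helper1.BSX

open TensorProduct

theorem gau_small {A U : Type} [Field A] [Field U] [Algebra A U] {W : ValuationSubring A}
    {W' : ValuationSubring U} (h : ∀ a : A, algebraMap A U a ∈ W' ↔ a ∈ W) (a : A)
    (ha : W.valuation a < 1) : W'.valuation (algebraMap A U a) < 1 := by
  rcases eq_or_ne a 0 with rfl | h0
  · rw [map_zero, map_zero]; exact zero_lt_one
  · have h1 : a⁻¹ ∉ W := by
      rw [← W.valuation_le_one_iff, map_inv₀, not_le]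
      exact (one_lt_inv₀ (zero_lt_iff.2 ((Valuation.ne_zero_iff _).2 h0))).2 ha
    have h2 : (algebraMap A U a)⁻¹ ∉ W' := by
      rw [← map_inv₀, h]
      exact h1
    have h3 : algebraMap A U a ≠ 0 := (map_ne_zero _).2 h0
    rw [← W'.valuation_le_one_iff, map_inv₀, not_le] at h2
    exact (one_lt_inv₀ (zero_lt_iff.2 ((Valuation.ne_zero_iff _).2 h3))).1 h2

theorem gau_unit {A B U : Type} [Field A] [Field B] [Field U] [Algebra A U] [Algebra B U]
    {W : ValuationSubring A}
    {W' : ValuationSubring U} (h : Abv A B U W W') (b : B) (hb : b ≠ 0) :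
    W'.valuation (algebraMap B U b) = 1 := by
  have h1 : W'.valuation (algebraMap B U b) ≤ 1 := (W'.valuation_le_one_iff _).2 (h.2 b)
  have h2 : W'.valuation (algebraMap B U b⁻¹) ≤ 1 := (W'.valuation_le_one_iff _).2 (h.2 _)
  rw [map_inv₀, map_inv₀] at h2
  have h3 : algebraMap B U b ≠ 0 := (map_ne_zero _).2 hb
  have h4 : 0 < W'.valuation (algebraMap B U b) := zero_lt_iff.2 ((Valuation.ne_zero_iff _).2 h3)
  exact le_antisymm h1 ((inv_le_one₀ h4).1 h2)

/-- the ring generated by `A` and `B` -/
theorem gau_ring {C A B U : Type} [Field C] [Field A] [Field B] [Field U] [Algebra C A]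
    [Algebra C B] [Algebra A U] [Algebra B U] [Algebra C U] [IsScalarTower C A U]
    [IsScalarTower C B U] (W : ValuationSubring A) (hW : ResC C A W) (z : U)
    (hz : z ∈ Subring.closure (Set.range (algebraMap A U) ∪ Set.range (algebraMap B U)))
    (hz0 : z ≠ 0) : ∃ (a : A) (b : B), a ≠ 0 ∧ b ≠ 0 ∧
      ∀ W' : ValuationSubring U, Abv A B U W W' →
        W'.valuation (z / algebraMap A U a - algebraMap B U b) < 1 := by
  classical
  let φ : A ⊗[C] B →ₐ[A] U :=
    Algebra.TensorProduct.lift (Algebra.ofId A U) (IsScalarTower.toAlgHom C B U)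
      (fun _ _ => Commute.all _ _)
  have hφ : ∀ (a : A) (b : B), φ (a ⊗ₜ b) = algebraMap A U a * algebraMap B U b := by
    intro a b
    rw [Algebra.TensorProduct.lift_tmul]
    rfl
  have hr : z ∈ φ.toRingHom.range := by
    have : Subring.closure (Set.range (algebraMap A U) ∪ Set.range (algebraMap B U)) ≤
        φ.toRingHom.range := by
      rw [Subring.closure_le]
      rintro x (⟨a, rfl⟩ | ⟨b, rfl⟩)
      · exact ⟨a ⊗ₜ 1, by
          show φ _ = _
          rw [hφ, map_one, mul_one]⟩
      · exact ⟨1 ⊗ₜ b, by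
          show φ _ = _
          rw [hφ, map_one, one_mul]⟩
    exact this hz
  obtain ⟨t, ht⟩ := hr
  have ht' : φ t = z := ht
  let β := Module.Basis.ofVectorSpace C B
  let bs := Algebra.TensorProduct.basis A β
  let f := bs.repr t
  have hsum : z = ∑ i ∈ f.support, algebraMap A U (f i) * algebraMap B U (β i) := by
    rw [← ht']
    conv_lhs => rw [← bs.linearCombination_repr t]
    rw [Finsupp.linearCombination_apply, Finsupp.sum, map_sum]
    apply Finset.sum_congr rfl
    intro i _
    rw [map_smul, Algebra.TensorProduct.basis_apply, hφ, map_one, one_mul, Algebra.smul_def]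
  have hne : f.support.Nonempty := by
    rw [Finset.nonempty_iff_ne_empty]
    intro h
    rw [h, Finset.sum_empty] at hsum
    exact hz0 hsum
  obtain ⟨j, hj, hmax⟩ := Finset.exists_max_image f.support (fun i => W.valuation (f i)) hne
  have hj0 : f j ≠ 0 := Finsupp.mem_support_iff.1 hj
  have hvj : 0 < W.valuation (f j) := zero_lt_iff.2 ((Valuation.ne_zero_iff _).2 hj0)
  have hex : ∀ i, ∃ c : C, i ∈ f.support → W.valuation (f i / f j - algebraMap C A c) < 1 := by
    intro i
    by_cases hi : i ∈ f.support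
    · obtain ⟨c, hc⟩ := hW.2 (f i / f j) (by
        rw [← W.valuation_le_one_iff, map_div₀]
        exact (div_le_one₀ hvj).2 (hmax i hi))
      exact ⟨c, fun _ => hc⟩
    · exact ⟨0, fun h => absurd h hi⟩
  choose c hc using hex
  have hcj : c j ≠ 0 := by
    intro h
    have := hc j hj
    rw [h, map_zero, sub_zero, div_self hj0, map_one] at this
    exact lt_irrefl _ this
  refine ⟨f j, ∑ i ∈ f.support, c i • β i, hj0, ?_, ?_⟩
  · intro h
    exact hcj ((linearIndependent_iff'.1 β.linearIndependent) f.support c h j hj)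
  · intro W' hW'
    have hj1 : algebraMap A U (f j) ≠ 0 := (map_ne_zero _).2 hj0
    have e1 : z / algebraMap A U (f j) - algebraMap B U (∑ i ∈ f.support, c i • β i) =
        ∑ i ∈ f.support, algebraMap A U (f i / f j - algebraMap C A (c i)) *
          algebraMap B U (β i) := by
      rw [hsum, Finset.sum_div, map_sum, ← Finset.sum_sub_distrib]
      apply Finset.sum_congr rfl
      intro i _
      rw [Algebra.smul_def, map_mul, map_sub, map_div₀, ← IsScalarTower.algebraMap_apply C B U,
        ← IsScalarTower.algebraMap_apply C A U]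
      ring
    rw [e1]
    apply Valuation.map_sum_lt _ one_ne_zero
    intro i hi
    rw [map_mul]
    have h1 := gau_small hW'.1 _ (hc i hi)
    have h2 : W'.valuation (algebraMap B U (β i)) ≤ 1 := (W'.valuation_le_one_iff _).2 (hW'.2 _)
    calc _ ≤ W'.valuation (algebraMap A U (f i / f j - algebraMap C A (c i))) * 1 :=
          mul_le_mul_right h2 _
      _ < 1 := by rw [mul_one]; exact h1

theorem st_GAU : ST_GAU := by
  intro C A B U _ _ _ _ _ _ _ _ _ _ _ W hW z hz hz0
  obtain ⟨z1, hz1, z2, hz2, rfl⟩ := Subfield.mem_closure_iff.1 hz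
  have h20 : z2 ≠ 0 := by rintro rfl; simp at hz0
  have h10 : z1 ≠ 0 := by rintro rfl; simp at hz0
  obtain ⟨a1, b1, ha1, hb1, h1⟩ := gau_ring (C := C) W hW z1 hz1 h10
  obtain ⟨a2, b2, ha2, hb2, h2⟩ := gau_ring (C := C) W hW z2 hz2 h20
  refine ⟨a1 / a2, b1 / b2, div_ne_zero ha1 ha2, div_ne_zero hb1 hb2, ?_⟩
  intro W' hW'
  have k1 := h1 W' hW'
  have k2 := h2 W' hW'
  have ub1 := gau_unit hW' b1 hb1
  have ub2 := gau_unit hW' b2 hb2
  set v := W'.valuation
  set A1 := algebraMap A U a1 with hA1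
  set A2 := algebraMap A U a2 with hA2
  set B1 := algebraMap B U b1 with hB1
  set B2 := algebraMap B U b2 with hB2
  have nA1 : A1 ≠ 0 := (map_ne_zero _).2 ha1
  have nA2 : A2 ≠ 0 := (map_ne_zero _).2 ha2
  have nB2 : B2 ≠ 0 := (map_ne_zero _).2 hb2
  have e1 : z1 / z2 / algebraMap A U (a1 / a2) - algebraMap B U (b1 / b2) =
      ((z1 / A1 - B1) * B2 - B1 * (z2 / A2 - B2)) / (B2 * (z2 / A2)) := by
    rw [map_div₀, map_div₀, ← hA1, ← hA2, ← hB1, ← hB2]
    field_simp
    ring
  have hu : v (z2 / A2) = 1 := by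
    have e2 : z2 / A2 = (z2 / A2 - B2) + B2 := by ring
    rw [e2, Valuation.map_add_eq_of_lt_right, ub2]
    rw [ub2]
    exact k2
  rw [e1, map_div₀, map_mul, hu, ub2, mul_one, div_one]
  apply lt_of_le_of_lt (Valuation.map_sub _ _ _)
  apply max_lt
  · rw [map_mul, ub2, mul_one]; exact k1
  · rw [map_mul, ub1, one_mul]; exact k2

end Pool.Agent.Helper1.BSX
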